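import Mathlib

/-!
Gaussian rotation identities for the refinement of Gaussian cells (block GAUSS of the
ultimate matching theorem).
-/

open MeasureTheory ProbabilityTheory Real

namespace Pool.UMC.Gs

/-- standard Gaussian on the line -/
noncomputable abbrev gam : Measure ℝ := gaussianReal 0 1

/-- standard Gaussian on the plane -/
noncomputable abbrev gam2 : Measure (ℝ × ℝ) := gam.prod gam

/-- the constant `√3 / 2` -/
noncomputable def kk : ℝ := √3 / 2

lemma kk_sq : kk ^ 2 = 3 / 4 := by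
  unfold kk
  rw [div_pow, Real.sq_sqrt (by norm_num)]
  norm_num

lemma kk_pos : 0 < kk := by
  unfold kk
  positivity

lemma kk_le : kk ≤ 1 := by
  have := kk_sq
  have := kk_pos
  nlinarith

/-- `chi c s g z = k g e + R_e z`, `e = (c, s)`, `R_e = 1 - e eᵀ / 2`, `k = √3 / 2`. -/
noncomputable def chi (c s g : ℝ) (z : ℝ × ℝ) : ℝ × ℝ :=
  (kk * g * c + z.1 - (c * z.1 + s * z.2) / 2 * c,
    kk * g * s + z.2 - (c * z.1 + s * z.2) / 2 * s)

/-- the joint change of variables `(g, z') ↦ (Z, g*)` -/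
noncomputable def psi (c s : ℝ) (p : ℝ × (ℝ × ℝ)) : (ℝ × ℝ) × ℝ :=
  (chi c s p.1 p.2, p.1 / 2 - kk * (c * p.2.1 + s * p.2.2))

lemma charFunDual_gam (L : StrongDual ℝ ℝ) :
    charFunDual gam L = Complex.exp (-((L 1 : ℝ) : ℂ) ^ 2 / 2) := by
  rw [charFunDual_eq_charFun_map_one]
  have h : gam.map L = gaussianReal 0 (Real.toNNReal ((L 1) ^ 2)) := by
    have h1 : (L : ℝ → ℝ) = fun x => (L 1) * x := by
      ext x
      have := L.map_smul x 1
      simp at this
      rw [this]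
      ring
    rw [h1]
    have h2 := gaussianReal_map_const_mul (μ := 0) (v := 1) (L 1)
    rw [h2]
    congr 1
    · simp
    · ext
      simp [sq_nonneg]
  rw [h, charFun_gaussianReal]
  congr 1
  rw [Real.coe_toNNReal _ (sq_nonneg _)]
  push_cast
  ring

/-- the continuous linear version of `psi` -/
noncomputable def psiL (c s : ℝ) : (ℝ × (ℝ × ℝ)) →L[ℝ] ((ℝ × ℝ) × ℝ) :=
  let g : (ℝ × (ℝ × ℝ)) →L[ℝ] ℝ := ContinuousLinearMap.fst ℝ ℝ (ℝ × ℝ)
  let x : (ℝ × (ℝ × ℝ)) →L[ℝ] ℝ :=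
    (ContinuousLinearMap.fst ℝ ℝ ℝ).comp (ContinuousLinearMap.snd ℝ ℝ (ℝ × ℝ))
  let y : (ℝ × (ℝ × ℝ)) →L[ℝ] ℝ :=
    (ContinuousLinearMap.snd ℝ ℝ ℝ).comp (ContinuousLinearMap.snd ℝ ℝ (ℝ × ℝ))
  (((kk * c) • g + (1 - c * c / 2) • x + (-(s * c) / 2) • y).prod
    ((kk * s) • g + (-(c * s) / 2) • x + (1 - s * s / 2) • y)).prod
    ((1 / 2 : ℝ) • g + (-(kk * c)) • x + (-(kk * s)) • y)

lemma psiL_apply (c s : ℝ) (p : ℝ × (ℝ × ℝ)) : psiL c s p = psi c s p := by
  rcases p with ⟨g, x, y⟩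
  simp only [psiL, psi, chi, ContinuousLinearMap.prod_apply, add_apply,
    smul_apply, ContinuousLinearMap.coe_fst', ContinuousLinearMap.coe_comp,
    Function.comp_apply, ContinuousLinearMap.coe_snd', smul_eq_mul, Prod.mk.injEq]
  refine ⟨⟨?_, ?_⟩, ?_⟩ <;> ring

/-- the joint law -/
theorem psi_map (c s : ℝ) (h : c ^ 2 + s ^ 2 = 1) :
    (gam.prod gam2).map (psi c s) = gam2.prod gam := by
  have hR : psi c s = psiL c s := by
    ext p : 1
    exact (psiL_apply c s p).symm
  rw [hR]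
  refine Measure.ext_of_charFunDual ?_
  ext L
  rw [charFunDual_map, charFunDual_prod, charFunDual_prod, charFunDual_prod, charFunDual_prod]
  simp only [charFunDual_gam, ← Complex.exp_add]
  congr 1
  have hL : ∀ x y w : ℝ, L ((x, y), w) = x * L ((1, 0), 0) + y * L ((0, 1), 0) + w * L ((0, 0), 1)
      := by
    intro x y w
    have : (((x, y), w) : (ℝ × ℝ) × ℝ) = x • ((1, 0), 0) + y • ((0, 1), 0) + w • ((0, 0), 1) := by
      ext <;> simp
    rw [this, map_add, map_add, map_smul, map_smul, map_smul]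
    simp
  set α := L ((1, 0), 0) with hα
  set β := L ((0, 1), 0) with hβ
  set κ := L ((0, 0), 1) with hκ
  have h1 : ((L.comp (psiL c s)).comp (ContinuousLinearMap.inl ℝ ℝ (ℝ × ℝ))) 1 =
      kk * c * α + kk * s * β + κ / 2 := by
    have : ((L.comp (psiL c s)).comp (ContinuousLinearMap.inl ℝ ℝ (ℝ × ℝ))) 1 =
        L (psi c s (1, 0)) := by
      simp [psiL_apply]
    rw [this]
    simp only [psi, chi]
    rw [hL]
    simp
    ring
  have h2 : (((L.comp (psiL c s)).comp (ContinuousLinearMap.inr ℝ ℝ (ℝ × ℝ))).comp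
      (ContinuousLinearMap.inl ℝ ℝ ℝ)) 1 =
      (1 - c * c / 2) * α + (-(c * s) / 2) * β - kk * c * κ := by
    have : (((L.comp (psiL c s)).comp (ContinuousLinearMap.inr ℝ ℝ (ℝ × ℝ))).comp
      (ContinuousLinearMap.inl ℝ ℝ ℝ)) 1 = L (psi c s (0, (1, 0))) := by
      simp [psiL_apply]
    rw [this]
    simp only [psi, chi]
    rw [hL]
    simp
    ring
  have h3 : (((L.comp (psiL c s)).comp (ContinuousLinearMap.inr ℝ ℝ (ℝ × ℝ))).comp
      (ContinuousLinearMap.inr ℝ ℝ ℝ)) 1 =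
      (-(c * s) / 2) * α + (1 - s * s / 2) * β - kk * s * κ := by
    have : (((L.comp (psiL c s)).comp (ContinuousLinearMap.inr ℝ ℝ (ℝ × ℝ))).comp
      (ContinuousLinearMap.inr ℝ ℝ ℝ)) 1 = L (psi c s (0, (0, 1))) := by
      simp [psiL_apply]
    rw [this]
    simp only [psi, chi]
    rw [hL]
    simp
    ring
  have h4 : ((L.comp (ContinuousLinearMap.inl ℝ (ℝ × ℝ) ℝ)).comp
      (ContinuousLinearMap.inl ℝ ℝ ℝ)) 1 = α := by simp [hα]
  have h5 : ((L.comp (ContinuousLinearMap.inl ℝ (ℝ × ℝ) ℝ)).comp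
      (ContinuousLinearMap.inr ℝ ℝ ℝ)) 1 = β := by simp [hβ]
  have h6 : (L.comp (ContinuousLinearMap.inr ℝ (ℝ × ℝ) ℝ)) 1 = κ := by
    simp [hκ]
    rfl
  rw [h1, h2, h3, h4, h5, h6]
  push_cast
  have hk : ((kk : ℝ) : ℂ) ^ 2 = 3 / 4 := by
    rw [← Complex.ofReal_pow, kk_sq]
    push_cast
    ring
  have hc : (c : ℂ) ^ 2 + (s : ℂ) ^ 2 = 1 := by exact_mod_cast h
  linear_combination (-1 / 2) * (((c : ℂ) * α + s * β) ^ 2 + κ ^ 2) * hk +
    (-1 / 2) * ((((c : ℂ) * α + s * β) / 2 + kk * κ) ^ 2) * hc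

lemma integrable_id_gam : Integrable (fun x : ℝ => x) gam :=
  (memLp_id_gaussianReal (μ := 0) (v := 1) 1).integrable (by norm_num)

lemma integral_id_gam : ∫ x : ℝ, x ∂gam = 0 :=
  integral_id_gaussianReal (μ := 0) (v := 1)

lemma integrable_of_bdd {α : Type*} [MeasurableSpace α] {μ : Measure α} [IsFiniteMeasure μ]
    {F : α → ℝ} (hF : Measurable F) {B : ℝ} (hb : ∀ z, |F z| ≤ B) : Integrable F μ :=
  Integrable.of_bound hF.aestronglyMeasurable B (Filter.Eventually.of_forall hb)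

lemma integrable_fst_mul {F : ℝ × ℝ → ℝ} (hF : Measurable F) {B : ℝ} (hb : ∀ z, |F z| ≤ B) :
    Integrable (fun z : ℝ × ℝ => z.1 * F z) gam2 := by
  have h1 : Integrable (fun z : ℝ × ℝ => z.1) gam2 := integrable_id_gam.comp_fst gam
  refine Integrable.mul_bdd (c := B) h1 hF.aestronglyMeasurable ?_
  exact Filter.Eventually.of_forall hb

lemma integrable_snd_mul {F : ℝ × ℝ → ℝ} (hF : Measurable F) {B : ℝ} (hb : ∀ z, |F z| ≤ B) :
    Integrable (fun z : ℝ × ℝ => z.2 * F z) gam2 := by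
  have h1 : Integrable (fun z : ℝ × ℝ => z.2) gam2 := integrable_id_gam.comp_snd gam
  refine Integrable.mul_bdd (c := B) h1 hF.aestronglyMeasurable ?_
  exact Filter.Eventually.of_forall hb

lemma measurable_psi (c s : ℝ) : Measurable (psi c s) := by
  have : psi c s = psiL c s := by
    ext p : 1
    exact (psiL_apply c s p).symm
  rw [this]
  exact (psiL c s).continuous.measurable

lemma measurable_chi (c s : ℝ) : Measurable (fun p : ℝ × (ℝ × ℝ) => chi c s p.1 p.2) :=
  (measurable_psi c s).fst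

lemma measurable_chi' (c s g : ℝ) : Measurable (chi c s g) :=
  (measurable_chi c s).comp (measurable_const.prodMk measurable_id)

/-- change of variables for a function of `(Z, g*)` -/
theorem integral_psi (c s : ℝ) (h : c ^ 2 + s ^ 2 = 1) (Φ : (ℝ × ℝ) × ℝ → ℝ)
    (hΦ : Integrable Φ (gam2.prod gam)) :
    ∫ g, ∫ z, Φ (psi c s (g, z)) ∂gam2 ∂gam = ∫ p, Φ p ∂(gam2.prod gam) := by
  rw [← psi_map c s h] at hΦ ⊢
  rw [integral_map (measurable_psi c s).aemeasurable hΦ.aestronglyMeasurable]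
  rw [integrable_map_measure hΦ.aestronglyMeasurable (measurable_psi c s).aemeasurable] at hΦ
  exact (integral_prod (fun x => Φ (psi c s x)) hΦ).symm

/-- refinement -/
theorem refine_mean (c s : ℝ) (h : c ^ 2 + s ^ 2 = 1) {F : ℝ × ℝ → ℝ} (hF : Integrable F gam2) :
    ∫ g, ∫ z, F (chi c s g z) ∂gam2 ∂gam = ∫ z, F z ∂gam2 := by
  have h1 := integral_psi c s h (fun p => F p.1) (hF.comp_fst gam)
  simp only [psi] at h1
  rw [h1, integral_prod _ (hF.comp_fst gam)]
  simp

theorem refine_g (c s : ℝ) (h : c ^ 2 + s ^ 2 = 1) {F : ℝ × ℝ → ℝ} (hF : Measurable F) {B : ℝ}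
    (hb : ∀ z, |F z| ≤ B) :
    ∫ g, g * ∫ z, F (chi c s g z) ∂gam2 ∂gam =
      kk * (c * ∫ z, z.1 * F z ∂gam2 + s * ∫ z, z.2 * F z ∂gam2) := by
  have hI : Integrable (fun p : (ℝ × ℝ) × ℝ =>
      (kk * (c * p.1.1 + s * p.1.2) + p.2 / 2) * F p.1) (gam2.prod gam) := by
    have h1 : Integrable (fun p : (ℝ × ℝ) × ℝ => kk * (c * (p.1.1 * F p.1) + s * (p.1.2 * F p.1)))
        (gam2.prod gam) :=
      Integrable.comp_fst (f := fun z : ℝ × ℝ => kk * (c * (z.1 * F z) + s * (z.2 * F z)))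
        (((integrable_fst_mul hF hb).const_mul c).add
          ((integrable_snd_mul hF hb).const_mul s) |>.const_mul kk) gam
    have h2 : Integrable (fun p : (ℝ × ℝ) × ℝ => F p.1 * (p.2 / 2)) (gam2.prod gam) :=
      (integrable_of_bdd hF hb).mul_prod (integrable_id_gam.div_const 2)
    refine (h1.add h2).congr (Filter.Eventually.of_forall fun p => ?_)
    simp
    ring
  have h1 := integral_psi c s h _ hI
  have h2 : ∀ g, ∫ z, (fun p : (ℝ × ℝ) × ℝ =>
      (kk * (c * p.1.1 + s * p.1.2) + p.2 / 2) * F p.1) (psi c s (g, z)) ∂gam2 =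
      g * ∫ z, F (chi c s g z) ∂gam2 := by
    intro g
    rw [← integral_const_mul]
    refine integral_congr_ae (Filter.Eventually.of_forall fun z => ?_)
    simp only [psi]
    congr 1
    simp only [chi]
    have hk := kk_sq
    linear_combination (kk * g * (kk) * 1 + kk * (-(c * z.1 + s * z.2) / 2)) * h + g * hk
  simp_rw [h2] at h1
  rw [h1]
  have e1 : ∀ p : (ℝ × ℝ) × ℝ, (kk * (c * p.1.1 + s * p.1.2) + p.2 / 2) * F p.1 =
      kk * (c * (p.1.1 * F p.1) + s * (p.1.2 * F p.1)) + F p.1 * (p.2 / 2) := by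
    intro p
    ring
  rw [integral_prod _ hI]
  have e2 : ∀ z : ℝ × ℝ, ∫ w, (kk * (c * z.1 + s * z.2) + w / 2) * F z ∂gam =
      kk * (c * (z.1 * F z) + s * (z.2 * F z)) := by
    intro z
    rw [integral_mul_const, integral_add (integrable_const _) (integrable_id_gam.div_const 2),
      integral_const, integral_div, integral_id_gam]
    simp
    ring
  simp only [e2]
  rw [integral_const_mul, integral_add ((integrable_fst_mul hF hb).const_mul c)
    ((integrable_snd_mul hF hb).const_mul s), integral_const_mul, integral_const_mul]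

theorem refine_fst (c s : ℝ) (h : c ^ 2 + s ^ 2 = 1) {F : ℝ × ℝ → ℝ} (hF : Measurable F) {B : ℝ}
    (hb : ∀ z, |F z| ≤ B) :
    ∫ g, ∫ z, z.1 * F (chi c s g z) ∂gam2 ∂gam =
      ∫ z, z.1 * F z ∂gam2 - (c * ∫ z, z.1 * F z ∂gam2 + s * ∫ z, z.2 * F z ∂gam2) / 2 * c := by
  have hA : Integrable (fun z : ℝ × ℝ => z.1 * F z - (c * (z.1 * F z) + s * (z.2 * F z)) / 2 * c)
      gam2 :=
    (integrable_fst_mul hF hb).sub (((((integrable_fst_mul hF hb).const_mul c).add
          ((integrable_snd_mul hF hb).const_mul s)).div_const 2).mul_const c)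
  have hI : Integrable (fun p : (ℝ × ℝ) × ℝ =>
      (p.1.1 - (c * p.1.1 + s * p.1.2) / 2 * c - kk * p.2 * c) * F p.1) (gam2.prod gam) := by
    have h1 := hA.comp_fst gam
    have h2 : Integrable (fun p : (ℝ × ℝ) × ℝ => F p.1 * (kk * p.2 * c)) (gam2.prod gam) :=
      (integrable_of_bdd hF hb).mul_prod ((integrable_id_gam.const_mul kk).mul_const c)
    refine (h1.sub h2).congr (Filter.Eventually.of_forall fun p => ?_)
    simp
    ring
  have h1 := integral_psi c s h _ hI
  have h2 : ∀ g, ∫ z, (fun p : (ℝ × ℝ) × ℝ =>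
      (p.1.1 - (c * p.1.1 + s * p.1.2) / 2 * c - kk * p.2 * c) * F p.1) (psi c s (g, z)) ∂gam2 =
      ∫ z, z.1 * F (chi c s g z) ∂gam2 := by
    intro g
    refine integral_congr_ae (Filter.Eventually.of_forall fun z => ?_)
    simp only [psi]
    congr 1
    simp only [chi]
    have hk := kk_sq
    linear_combination (-(kk * g * c / 2) + (c * z.1 + s * z.2) / 4 * c) * h +
      (c * z.1 + s * z.2) * c * hk
  simp_rw [h2] at h1
  rw [h1, integral_prod _ hI]
  have e2 : ∀ z : ℝ × ℝ, ∫ w, (z.1 - (c * z.1 + s * z.2) / 2 * c - kk * w * c) * F z ∂gam =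
      (1 - c * c / 2) * (z.1 * F z) + (-(s * c) / 2) * (z.2 * F z) := by
    intro z
    rw [integral_mul_const, integral_sub (integrable_const _)
      ((integrable_id_gam.const_mul kk).mul_const c), integral_const, integral_mul_const,
      integral_const_mul, integral_id_gam]
    simp
    ring
  simp only [e2]
  rw [integral_add ((integrable_fst_mul hF hb).const_mul _)
    ((integrable_snd_mul hF hb).const_mul _), integral_const_mul, integral_const_mul]
  ring

theorem refine_snd (c s : ℝ) (h : c ^ 2 + s ^ 2 = 1) {F : ℝ × ℝ → ℝ} (hF : Measurable F) {B : ℝ}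
    (hb : ∀ z, |F z| ≤ B) :
    ∫ g, ∫ z, z.2 * F (chi c s g z) ∂gam2 ∂gam =
      ∫ z, z.2 * F z ∂gam2 - (c * ∫ z, z.1 * F z ∂gam2 + s * ∫ z, z.2 * F z ∂gam2) / 2 * s := by
  have hA : Integrable (fun z : ℝ × ℝ => z.2 * F z - (c * (z.1 * F z) + s * (z.2 * F z)) / 2 * s)
      gam2 :=
    (integrable_snd_mul hF hb).sub (((((integrable_fst_mul hF hb).const_mul c).add
          ((integrable_snd_mul hF hb).const_mul s)).div_const 2).mul_const s)
  have hI : Integrable (fun p : (ℝ × ℝ) × ℝ =>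
      (p.1.2 - (c * p.1.1 + s * p.1.2) / 2 * s - kk * p.2 * s) * F p.1) (gam2.prod gam) := by
    have h1 := hA.comp_fst gam
    have h2 : Integrable (fun p : (ℝ × ℝ) × ℝ => F p.1 * (kk * p.2 * s)) (gam2.prod gam) :=
      (integrable_of_bdd hF hb).mul_prod ((integrable_id_gam.const_mul kk).mul_const s)
    refine (h1.sub h2).congr (Filter.Eventually.of_forall fun p => ?_)
    simp
    ring
  have h1 := integral_psi c s h _ hI
  have h2 : ∀ g, ∫ z, (fun p : (ℝ × ℝ) × ℝ =>
      (p.1.2 - (c * p.1.1 + s * p.1.2) / 2 * s - kk * p.2 * s) * F p.1) (psi c s (g, z)) ∂gam2 =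
      ∫ z, z.2 * F (chi c s g z) ∂gam2 := by
    intro g
    refine integral_congr_ae (Filter.Eventually.of_forall fun z => ?_)
    simp only [psi]
    congr 1
    simp only [chi]
    have hk := kk_sq
    linear_combination (-(kk * g * s / 2) + (c * z.1 + s * z.2) / 4 * s) * h +
      (c * z.1 + s * z.2) * s * hk
  simp_rw [h2] at h1
  rw [h1, integral_prod _ hI]
  have e2 : ∀ z : ℝ × ℝ, ∫ w, (z.2 - (c * z.1 + s * z.2) / 2 * s - kk * w * s) * F z ∂gam =
      (-(c * s) / 2) * (z.1 * F z) + (1 - s * s / 2) * (z.2 * F z) := by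
    intro z
    rw [integral_mul_const, integral_sub (integrable_const _)
      ((integrable_id_gam.const_mul kk).mul_const s), integral_const, integral_mul_const,
      integral_const_mul, integral_id_gam]
    simp
    ring
  simp only [e2]
  rw [integral_add ((integrable_fst_mul hF hb).const_mul _)
    ((integrable_snd_mul hF hb).const_mul _), integral_const_mul, integral_const_mul]
  ring

end Pool.UMC.Gs
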